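import Mathlib
import Pool.Agent.Lib.MP_435399_an.CV.Main

set_option autoImplicit false

open MeasureTheory Filter Topology

namespace Pool.Agent.Results.MP_435399_an.Converse

/-- Membership in the Bergman space of the unit disc. -/
def InBergman (f : ℂ → ℂ) : Prop :=
  DifferentiableOn ℂ f (Metric.ball (0 : ℂ) 1) ∧
    IntegrableOn (fun w => ‖f w‖ ^ 2) (Metric.ball (0 : ℂ) 1)

/-- The finite linear combination of the kernels `(1 - z n w)⁻²` over `n ∈ s` with coefficients `a`. -/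
noncomputable def kernelSum (z : ℕ → ℂ) (s : Finset ℕ) (a : ℕ → ℂ) (w : ℂ) : ℂ :=
  ∑ n ∈ s, a n * ((1 - z n * w) ^ 2)⁻¹

/-- The squared Bergman distance. -/
noncomputable def distSq (f g : ℂ → ℂ) : ℝ :=
  ∫ w in Metric.ball (0 : ℂ) 1, ‖f w - g w‖ ^ 2

/-- The kernel combinations are dense in the Bergman space. -/
def Spans (z : ℕ → ℂ) : Prop :=
  ∀ u, InBergman u → ∀ ε : ℝ, 0 < ε → ∃ s a, distSq u (kernelSum z s a) < ε

/-- Some kernel combinations tend to `f` in Bergman norm and to `h` uniformly on `Δ`. -/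
def JointLimit (z : ℕ → ℂ) (Δ : Set ℂ) (f h : ℂ → ℂ) : Prop :=
  ∃ (S : ℕ → Finset ℕ) (c : ℕ → ℕ → ℂ),
    Tendsto (fun j => distSq (kernelSum z (S j) (c j)) f) atTop (𝓝 0) ∧
    TendstoUniformlyOn (fun j => kernelSum z (S j) (c j)) h atTop Δ

theorem result (z : ℕ → ℂ) (hz : ∀ n, ‖z n‖ < 1) (c0 : ℂ) (ρ ρ' : ℝ) (hρ : 0 < ρ) (hρ' : ρ < ρ')
    (hΔ : ∀ w ∈ Metric.closedBall c0 ρ', 1 < ‖w‖)
    (hpole : ∀ n, ∀ w ∈ Metric.closedBall c0 ρ', z n * w ≠ 1) (hs : Spans z)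
    (u h : ℂ → ℂ) (hu : InBergman u) (hh : DifferentiableOn ℂ h (Metric.closedBall c0 ρ')) :
    JointLimit z (Metric.closedBall c0 ρ) u h := by
  have hm : ∀ u, InBergman u → MemLp u 2 Pool.Agent.Lib.MP_435399_an.μD := fun u hu =>
    Pool.Agent.Lib.MP_435399_an.memLp_of_sq hu.1.continuousOn hu.2
  choose s a h1 h2 using fun j : ℕ => Pool.Agent.Lib.MP_435399_an.CV.converse hz hρ hρ' hΔ hpole
    (fun v hv hv' => hs v ⟨hv, hv'.norm.integrable_sq⟩) hu.1 (hm u hu) hh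
    (ε := 1 / ((j : ℝ) + 1)) (by positivity)
  refine ⟨s, a, ?_, ?_⟩
  · refine squeeze_zero (fun j => integral_nonneg fun w => by positivity) (fun j => ?_)
      tendsto_one_div_add_atTop_nhds_zero_nat
    unfold distSq
    simp_rw [norm_sub_rev (kernelSum z (s j) (a j) _)]
    exact (h2 j).le
  · rw [Metric.tendstoUniformlyOn_iff]
    intro e he
    filter_upwards [(tendsto_one_div_add_atTop_nhds_zero_nat (𝕜 := ℝ)).eventually
      (gt_mem_nhds he)] with j hj w hw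
    rw [dist_eq_norm]
    exact (h1 j w hw).trans_lt hj

end Pool.Agent.Results.MP_435399_an.Converse
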