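import Mathlib
import Pool.Agent.Lib.MP_435399_an.ZO.Core

set_option autoImplicit false

open MeasureTheory Filter Topology

namespace Pool.Agent.Results.MP_435399_an.ZeroOne

/-- Membership in the Bergman space of the unit disc. -/
def InBergman (f : ℂ → ℂ) : Prop :=
  DifferentiableOn ℂ f (Metric.ball (0 : ℂ) 1) ∧
    IntegrableOn (fun w => ‖f w‖ ^ 2) (Metric.ball (0 : ℂ) 1)

/-- The finite linear combination of the kernels `(1 - z n w)⁻²` over `n ∈ s` with coefficients `a`. -/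
noncomputable def kernelSum (z : ℕ → ℂ) (s : Finset ℕ) (a : ℕ → ℂ) (w : ℂ) : ℂ :=
  ∑ n ∈ s, a n * ((1 - z n * w) ^ 2)⁻¹

/-- `f` is the Bergman-norm limit of kernel combinations that tend to zero uniformly on `Δ`. -/
def NullLimit (z : ℕ → ℂ) (Δ : Set ℂ) (f : ℂ → ℂ) : Prop :=
  ∃ (S : ℕ → Finset ℕ) (c : ℕ → ℕ → ℂ),
    Tendsto (fun j => ∫ w in Metric.ball (0 : ℂ) 1, ‖kernelSum z (S j) (c j) w - f w‖ ^ 2)
      atTop (𝓝 0) ∧
    TendstoUniformlyOn (fun j => kernelSum z (S j) (c j)) 0 atTop Δ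

theorem result (z : ℕ → ℂ) (hz : ∀ n, ‖z n‖ < 1) (c0 : ℂ) (ρ : ℝ) (hρ : 0 < ρ)
    (hΔ : ∀ w ∈ Metric.closedBall c0 ρ, 1 < ‖w‖)
    (hpole : ∀ n, ∀ w ∈ Metric.closedBall c0 ρ, z n * w ≠ 1)
    (f : ℂ → ℂ) (hf : InBergman f) (hlim : NullLimit z (Metric.closedBall c0 ρ) f)
    (hne : ∃ w ∈ Metric.ball (0 : ℂ) 1, f w ≠ 0) :
    ∀ u : ℂ → ℂ, InBergman u → NullLimit z (Metric.closedBall c0 ρ) u := by
  intro u hu
  obtain ⟨S, c, hconv, hunif⟩ := hlim
  choose s a h1 h2 using fun j : ℕ => Pool.Agent.Lib.MP_435399_an.ZO.zero_one hz hρ hΔ hpole S c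
    hf.1 (Pool.Agent.Lib.MP_435399_an.memLp_of_sq hf.1.continuousOn hf.2) hconv hunif hne hu.1
    (Pool.Agent.Lib.MP_435399_an.memLp_of_sq hu.1.continuousOn hu.2)
    (ε := 1 / ((j : ℝ) + 1)) (by positivity)
  refine ⟨s, a, ?_, ?_⟩
  · refine squeeze_zero (fun j => integral_nonneg fun w => by positivity) (fun j => ?_)
      tendsto_one_div_add_atTop_nhds_zero_nat
    simp_rw [norm_sub_rev (kernelSum z (s j) (a j) _)]
    exact (h2 j).le
  · rw [Metric.tendstoUniformlyOn_iff]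
    intro e he
    filter_upwards [(tendsto_one_div_add_atTop_nhds_zero_nat (𝕜 := ℝ)).eventually (gt_mem_nhds he)]
      with j hj w hw
    rw [Pi.zero_apply, dist_zero_left]
    exact (h1 j w hw).trans_lt hj

end Pool.Agent.Results.MP_435399_an.ZeroOne
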